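import Pool.Agent.Helper70.ML.St

/-!
Module MAIN of project ML.
-/

set_option autoImplicit false

namespace Pool.Agent.Helper75.ML

open Pool.Agent.Helper70.ML Pool.Agent.Helper75.MX
open scoped commutatorElement

theorem logb_card_quot {G : Type} [Group G] [Finite G] (K : Subgroup G) :
    Real.logb 2 (Nat.card G) = Real.logb 2 (Nat.card (G ⧸ K)) + Real.logb 2 (Nat.card K) := by
  have h1 : (0 : ℝ) < Nat.card (G ⧸ K) := by exact_mod_cast Nat.card_pos
  have h2 : (0 : ℝ) < Nat.card K := by exact_mod_cast Nat.card_pos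
  rw [card_quot K]
  push_cast
  rw [Real.logb_mul h1.ne' h2.ne']

theorem logb_card_nonneg (G : Type) [Group G] [Finite G] : 0 ≤ Real.logb 2 (Nat.card G) := by
  apply Real.logb_nonneg (by norm_num)
  have : 1 ≤ Nat.card G := Nat.card_pos
  exact_mod_cast this

theorem le_of_pow {k n C : ℝ} (hC : 6 ≤ C) (hn : 0 ≤ n) (h : k ≤ 6 * n) : k ≤ C * n := by
  nlinarith

theorem log_of_pow {m n : ℕ} (hn : 0 < n) (h : 2 ^ m ≤ n ^ 6) : (m : ℝ) ≤ 6 * Real.logb 2 n := by
  have hn' : (0 : ℝ) < n := by exact_mod_cast hn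
  have h1 : ((2 : ℝ) ^ m) ≤ (n : ℝ) ^ 6 := by exact_mod_cast h
  have h2 : Real.logb 2 ((2 : ℝ) ^ m) ≤ Real.logb 2 ((n : ℝ) ^ 6) :=
    Real.logb_le_logb_of_le (by norm_num) (by positivity) h1
  rw [Real.logb_pow, Real.logb_pow, Real.logb_self_eq_one (by norm_num), mul_one] at h2
  exact_mod_cast h2

theorem wt_le (n : ℕ) : wt n ≤ n ^ 6 := by
  unfold wt
  rcases Nat.eq_zero_or_pos n with h | h
  · subst h; simp
  · calc n * (ordCompl[2] n) ^ 5 ≤ n * n ^ 5 :=
        Nat.mul_le_mul_left _ (Nat.pow_le_pow_left (Nat.ordCompl_le n 2) 5)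
      _ = n ^ 6 := by ring

theorem hMAIN (hHYP : StHYP) (hSOL : StSOL) (hSTR : StSTR) (hSTEP : StSTEP) (hALT : StALT) :
    StMAIN := by
  intro C hC
  suffices key : ∀ n : ℕ, ∀ (G : Type) [Group G] [Finite G], Nat.card G = n → Hyp C G → TS G →
      Good C G by
    intro G _ _ h1 h2
    exact key _ G rfl h1 h2
  intro n
  induction n using Nat.strong_induction_on with
  | _ n ih =>
  intro G _ _ hn hH hTS
  classical
  obtain ⟨hHsub, hHquot, hHself⟩ := hHYP C G hH
  by_cases hA : ∃ K : Subgroup G, K.Normal ∧ TS K ∧ K ≠ ⊥ ∧ K ≠ ⊤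
  · obtain ⟨K, hKn, hKT, hb, htop⟩ := hA
    have hc := card_quot K
    have hK1 : 1 < Nat.card K := by
      rw [Subgroup.one_lt_card_iff_ne_bot]; exact hb
    have hQ1 : 1 < Nat.card (G ⧸ K) := by
      have : Nat.card (G ⧸ K) ≠ 1 := fun h => htop (Subgroup.index_eq_one.1 h)
      have : 0 < Nat.card (G ⧸ K) := Nat.card_pos
      omega
    obtain ⟨k1, hk1, hb1⟩ := ih (Nat.card K) (by rw [← hn, hc]; nlinarith) K rfl
      (hHsub K hKn) hKT
    obtain ⟨k2, hk2, hb2⟩ := ih (Nat.card (G ⧸ K)) (by rw [← hn, hc]; nlinarith) (G ⧸ K) rfl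
      (hHquot K) (hTS.quot K)
    refine ⟨k1 + k2, mix_ext K hk1 hk2, ?_⟩
    rw [logb_card_quot K]
    push_cast
    linarith
  have hHH : ∀ K : Subgroup G, K.Normal → TS K → K = ⊥ ∨ K = ⊤ := by
    intro K hK hT
    by_contra hcon
    push Not at hcon
    exact hA ⟨K, hK, hT, hcon.1, hcon.2⟩
  have hodd : ∀ K : Subgroup G, K.Normal → K ≠ ⊤ → Odd (Nat.card K) :=
    fun K hK hne => odd_of_proper hHH hK hne
  -- the step
  have hstep : StepP G → Good C G := by
    rintro ⟨M, hMn, hMne, m, hm, hF⟩
    have hM1 : 1 < Nat.card M := by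
      rw [Subgroup.one_lt_card_iff_ne_bot]; exact hMne
    have hc := card_quot M
    have hQ1 : 0 < Nat.card (G ⧸ M) := Nat.card_pos
    obtain ⟨k1, hk1, hb1⟩ := ih (Nat.card (G ⧸ M)) (by rw [← hn, hc]; nlinarith) (G ⧸ M) rfl
      (hHquot M) (hTS.quot M)
    obtain ⟨F, _, hF2⟩ := mix_stage M hk1
    obtain ⟨F', hr, hs⟩ := hF F
    refine ⟨k1 + m, hF2 _ F' hr hs, ?_⟩
    have h1 := le_of_pow hC (logb_card_nonneg M) (log_of_pow (Nat.card_pos (α := M)) hm)
    rw [logb_card_quot M]
    push_cast
    linarith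
  have hgood6 : Good 6 G → Good C G := by
    rintro ⟨k, hk, hb⟩
    exact ⟨k, hk, le_of_pow hC (logb_card_nonneg G) hb⟩
  by_cases hG1 : Nat.card G = 1
  · refine ⟨0, ?_, by
      have := logb_card_nonneg G
      have : 0 ≤ C * Real.logb 2 (Nat.card G) := mul_nonneg (by linarith) this
      simpa using this⟩
    have hsub : Subsingleton G := (Nat.card_eq_one_iff_unique.1 hG1).1
    have : dlt G = uni G := by
      funext x
      simp [dlt, uni, Subsingleton.elim x 1]
    unfold Mix
    rw [this]
    exact Reach.refl _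
  have hev : Even (Nat.card G) := by
    by_contra hne
    rw [Nat.not_even_iff_odd] at hne
    have h1 : (⊥ : Subgroup G) = ⊤ := hTS ⊥ inferInstance (by rw [Subgroup.index_bot]; exact hne)
    apply hG1
    have h2 : (⊥ : Subgroup G).index = 1 := by rw [h1, Subgroup.index_top]
    rwa [Subgroup.index_bot] at h2
  have hbt : (⊥ : Subgroup G) ≠ ⊤ := by
    intro h
    apply hG1
    have h2 : (⊥ : Subgroup G).index = 1 := by rw [h, Subgroup.index_top]
    rwa [Subgroup.index_bot] at h2
  obtain ⟨t, ht, htne⟩ := exists_inv hev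
  have ht1 : Subgroup.normalClosure {t} = ⊤ := by
    by_contra hne
    have h1 := hodd _ inferInstance hne
    exact htne (odd_sq h1 (Subgroup.subset_normalClosure (Set.mem_singleton t)) ht)
  -- a largest proper normal subgroup
  obtain ⟨M, ⟨hMn, hMtop⟩, hMmax⟩ : ∃ M : Subgroup G, (M.Normal ∧ M ≠ ⊤) ∧
      ∀ K : Subgroup G, K.Normal ∧ K ≠ ⊤ → Nat.card K ≤ Nat.card M := by
    have hfin : Set.Finite {K : Subgroup G | K.Normal ∧ K ≠ ⊤} := Set.toFinite _
    obtain ⟨M, hM, hmax⟩ := Set.exists_max_image _ (fun K : Subgroup G => Nat.card K) hfin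
      ⟨⊥, inferInstance, hbt⟩
    exact ⟨M, hM, fun K hK => hmax K hK⟩
  have hModd : Odd (Nat.card M) := hodd M hMn hMtop
  have hle : ∀ K : Subgroup G, K.Normal → K ≠ ⊤ → K ≤ M := by
    intro K hK hKt
    have hKodd := hodd K hK hKt
    have h1 : Nat.card (M ⊔ K : Subgroup G) = Nat.card M * M.relIndex K := by
      have e1 : (⊥ : Subgroup G).relIndex M * M.relIndex (M ⊔ K) = (⊥ : Subgroup G).relIndex (M ⊔ K) :=
        Subgroup.relIndex_mul_relIndex _ _ _ bot_le le_sup_left
      rw [Subgroup.relIndex_bot_left, Subgroup.relIndex_bot_left, Subgroup.relIndex_sup_left] at e1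
      exact e1.symm
    have h2 : Odd (Nat.card (M ⊔ K : Subgroup G)) := by
      rw [h1]
      exact hModd.mul (hKodd.of_dvd_nat (M.relIndex_dvd_card K))
    have h3 : (M ⊔ K : Subgroup G) ≠ ⊤ := by
      intro h
      rw [h, Subgroup.card_top] at h2
      exact (Nat.not_even_iff_odd.2 h2) hev
    have h4 := hMmax (M ⊔ K) ⟨inferInstance, h3⟩
    have h5 : M = M ⊔ K := Subgroup.eq_of_le_of_card_ge le_sup_left h4
    rw [h5]
    exact le_sup_right
  have hMsol : Group.IsSolvable M := hSOL C M (hHsub M hMn) hModd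
  by_cases hcomm : commutator G = ⊤
  · have hcen : Subgroup.center G ≠ ⊤ := by
      intro h
      apply hbt
      rw [← hcomm, eq_comm, commutator_def, Subgroup.commutator_eq_bot_iff_le_centralizer]
      intro x _
      rw [Subgroup.mem_centralizer_iff]
      intro y _
      have hx : x ∈ Subgroup.center G := by rw [h]; exact Subgroup.mem_top x
      exact Subgroup.mem_center_iff.1 hx y
    by_cases hMc : M ≤ Subgroup.center G
    · have hMeq : Subgroup.center G = M := le_antisymm (hle _ inferInstance hcen) hMc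
      have hQO : QO G := by
        refine ⟨hcomm, ?_, by rw [hMeq]; exact hModd⟩
        have hnt : Nontrivial (G ⧸ Subgroup.center G) := by
          rw [← Finite.one_lt_card_iff_nontrivial]
          have h1 : Nat.card (G ⧸ Subgroup.center G) ≠ 1 := fun h => hcen (Subgroup.index_eq_one.1 h)
          have h2 : 0 < Nat.card (G ⧸ Subgroup.center G) := Nat.card_pos
          omega
        refine { exists_pair_ne := hnt.exists_pair_ne, eq_bot_or_eq_top_of_normal := ?_ }
        intro N hN
        by_cases hNt : N.comap (QuotientGroup.mk' (Subgroup.center G)) = ⊤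
        · right
          have h1 : (N.comap (QuotientGroup.mk' (Subgroup.center G))).index = N.index :=
            Subgroup.index_comap_of_surjective N (QuotientGroup.mk'_surjective _)
          rw [hNt, Subgroup.index_top] at h1
          exact Subgroup.index_eq_one.1 h1.symm
        · left
          have h1 := hle _ (hN.comap _) hNt
          rw [← hMeq] at h1
          rw [eq_bot_iff]
          intro y hy
          obtain ⟨x, rfl⟩ := QuotientGroup.mk'_surjective (Subgroup.center G) y
          have hx : x ∈ Subgroup.center G := h1 hy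
          rw [Subgroup.mem_bot, QuotientGroup.mk'_apply]
          exact (QuotientGroup.eq_one_iff x).2 hx
      by_cases hAlt : AltQ G
      · rcases hALT G hQO hAlt with h | h
        · exact hstep h
        · exact hgood6 h
      · exact hHself hQO hAlt
    · obtain ⟨A, hAn, hAodd, hAA, hex⟩ := hSTR G hodd t ht ht1 hcen M hMn hMtop hMsol hMc
      exact hstep (hSTEP G hodd hcen t ht A hAn hAodd hAA hex)
  · -- solvable
    have hcM : commutator G ≤ M := hle _ inferInstance hcomm
    have hQ : Group.IsSolvable (G ⧸ M) := by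
      apply Group.isSolvable_of_comm
      intro a b
      obtain ⟨x, rfl⟩ := QuotientGroup.mk'_surjective M a
      obtain ⟨y, rfl⟩ := QuotientGroup.mk'_surjective M b
      rw [← map_mul, ← map_mul, QuotientGroup.mk'_apply, QuotientGroup.mk'_apply, QuotientGroup.eq]
      apply hcM
      have e : (x * y)⁻¹ * (y * x) = ⁅y⁻¹, x⁻¹⁆ := by rw [commutatorElement_def]; group
      rw [e, commutator_def]
      exact Subgroup.commutator_mem_commutator (Subgroup.mem_top _) (Subgroup.mem_top _)
    have hsol : Group.IsSolvable G := by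
      apply Group.isSolvable_of_ker_le_range M.subtype (QuotientGroup.mk' M)
      rw [QuotientGroup.ker_mk', Subgroup.range_subtype]
    obtain ⟨k, hk, hb⟩ := main _ G rfl hsol hTS
    apply hgood6
    exact ⟨k, hk, log_of_pow Nat.card_pos (hb.trans (wt_le _))⟩

end Pool.Agent.Helper75.ML
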