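import Pool.Agent.Helper70.ML.St

/-!
Module STEP of project ML.
-/

set_option autoImplicit false

namespace Pool.Agent.Helper75.ML

open Pool.Agent.Helper70.ML Pool.Agent.Helper75.MX
open scoped commutatorElement

theorem hSTEP : StSTEP := by
  intro G _ _ hodd hcen t ht A hAn hAodd hAA hex
  classical
  obtain ⟨a0, ha0A, hta0, ha0c⟩ := hex
  obtain ⟨q, a, hqp, hq2, horda, haA, hta, hac⟩ := structure_q hodd hcen hAodd ha0A hta0 ha0c
  have : Fact q.Prime := ⟨hqp⟩
  have haq : a ^ q = 1 := by rw [← horda]; exact pow_orderOf_eq_one a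
  have ha1 : a ≠ 1 := by
    intro h; rw [h] at hac; exact hac (Subgroup.one_mem _)
  have hcb := cost_bound hqp hq2
  by_cases hab : ∀ g : G, a * (g * a * g⁻¹) = (g * a * g⁻¹) * a
  · -- elementary abelian normal closure
    set M := Subgroup.normalClosure {a} with hM
    have haM : a ∈ M := Subgroup.subset_normalClosure (Set.mem_singleton a)
    have hMne : M ≠ ⊥ := by
      intro h; rw [h, Subgroup.mem_bot] at haM; exact ha1 haM
    have hset : ∀ y ∈ Group.conjugatesOfSet ({a} : Set G), ∃ g : G, y = g * a * g⁻¹ := by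
      intro y hy
      rw [Group.mem_conjugatesOfSet_iff] at hy
      obtain ⟨x, hx, hcj⟩ := hy
      rw [Set.mem_singleton_iff] at hx
      subst hx
      obtain ⟨g, hg⟩ := isConj_iff.1 hcj
      exact ⟨g, hg.symm⟩
    have hcj : ∀ x ∈ Group.conjugatesOfSet ({a} : Set G),
        ∀ y ∈ Group.conjugatesOfSet ({a} : Set G), x * y = y * x := by
      intro x hx y hy
      obtain ⟨g, rfl⟩ := hset x hx
      obtain ⟨h, rfl⟩ := hset y hy
      have e1 : g * a * g⁻¹ * (h * a * h⁻¹)
          = g * (a * ((g⁻¹ * h) * a * (g⁻¹ * h)⁻¹)) * g⁻¹ := by group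
      have e2 : h * a * h⁻¹ * (g * a * g⁻¹)
          = g * (((g⁻¹ * h) * a * (g⁻¹ * h)⁻¹) * a) * g⁻¹ := by group
      rw [e1, e2, hab (g⁻¹ * h)]
    have hMc' : IsMulCommutative M := Subgroup.isMulCommutative_closure hcj
    have hMc : ∀ x ∈ M, ∀ y ∈ M, x * y = y * x := by
      intro x hx y hy
      exact congrArg Subtype.val (hMc'.is_comm.comm (⟨x, hx⟩ : M) ⟨y, hy⟩)
    have hMq : ∀ x ∈ M, x ^ q = 1 := by
      intro x hx
      refine Subgroup.closure_induction (p := fun x _ => x ^ q = 1) ?_ (one_pow q) ?_ ?_ hx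
      · intro y hy
        obtain ⟨g, rfl⟩ := hset y hy
        rw [conj_pow, haq]; group
      · intro x y hx hy h1 h2
        have hxy : Commute x y := hMc x hx y hy
        rw [hxy.mul_pow, h1, h2, one_mul]
      · intro x _ h1
        rw [inv_pow, h1, inv_one]
    have hgen : M ≤ Subgroup.closure {w | w ∈ M ∧ ∃ t : G, t * t = 1 ∧ t * w * t⁻¹ = w⁻¹} := by
      rw [hM]
      change Subgroup.closure (Group.conjugatesOfSet {a}) ≤ _
      rw [Subgroup.closure_le]
      intro y hy
      apply Subgroup.subset_closure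
      refine ⟨Subgroup.subset_closure hy, ?_⟩
      obtain ⟨g, rfl⟩ := hset y hy
      refine ⟨g * t * g⁻¹, ?_, ?_⟩
      · have : g * t * g⁻¹ * (g * t * g⁻¹) = g * (t * t) * g⁻¹ := by group
        rw [this, ht]; group
      · have : g * t * g⁻¹ * (g * a * g⁻¹) * (g * t * g⁻¹)⁻¹ = g * (t * a * t⁻¹) * g⁻¹ := by group
        rw [this, hta]; group
    have hMn : M.Normal := by rw [hM]; infer_instance
    have hcM0 : Nat.card M ≠ 0 := Nat.card_pos.ne'
    refine ⟨M, hMn, hMne, Nat.log q (Nat.card M) * (1 + cost q), ?_, ?_⟩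
    · calc 2 ^ (Nat.log q (Nat.card M) * (1 + cost q))
          = (2 ^ (1 + cost q)) ^ (Nat.log q (Nat.card M)) := by rw [← pow_mul, mul_comm]
        _ ≤ (2 ^ (2 + 2 * cost q)) ^ (Nat.log q (Nat.card M)) := by
          apply Nat.pow_le_pow_left
          apply Nat.pow_le_pow_right (by norm_num)
          omega
        _ ≤ (q ^ 6) ^ (Nat.log q (Nat.card M)) := Nat.pow_le_pow_left hcb _
        _ = (q ^ (Nat.log q (Nat.card M))) ^ 6 := by rw [← pow_mul, ← pow_mul, mul_comm]
        _ ≤ Nat.card M ^ 6 := Nat.pow_le_pow_left (Nat.pow_log_le_self q hcM0) 6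
    · intro F
      obtain ⟨F', k, hr, hs, hqk⟩ := stage_abel hMq hMc hMn hgen F
      refine ⟨F', hr.mono ?_, hs⟩
      exact Nat.mul_le_mul_right _ ((Nat.le_log_iff_pow_le hqp.one_lt hcM0).2 hqk)
  · push Not at hab
    obtain ⟨g, hg⟩ := hab
    set nn := g * a * g⁻¹ with hnn
    set z := a * nn * a⁻¹ * nn⁻¹ with hz
    have hz1 : z ≠ 1 := by
      intro h
      apply hg
      have : z * (nn * a) = a * nn := by rw [hz]; group
      rw [h, one_mul] at this
      exact this.symm
    have hzc : z ∈ Subgroup.center G := by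
      apply hAA
      have : z = ⁅a, nn⁆ := by rw [hz, commutatorElement_def]
      rw [this]
      exact Subgroup.commutator_mem_commutator haA (hAn.conj_mem a haA g)
    have hzz : ∀ x, x * z = z * x := Subgroup.mem_center_iff.1 hzc
    have hzq : z ^ q = 1 := by
      have h1 : ∀ i : ℕ, a ^ i * nn = z ^ i * nn * a ^ i := by
        intro i
        induction i with
        | zero => simp
        | succ i ih =>
          have h2 : a * nn = z * nn * a := by rw [hz]; group
          rw [pow_succ, mul_assoc, h2]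
          have h3 : a ^ i * (z * nn * a) = (a ^ i * z) * nn * a := by group
          rw [h3, hzz (a ^ i)]
          have h4 : z * a ^ i * nn * a = z * (a ^ i * nn) * a := by group
          rw [h4, ih, pow_succ' z]
          group
      have h2 := h1 q
      rw [haq, one_mul, mul_one] at h2
      exact (mul_eq_right.1 h2.symm)
    have hordz : orderOf z = q := orderOf_eq_prime hzq hz1
    set M := Subgroup.zpowers z with hM
    have hMn : M.Normal := by
      constructor
      intro x hx g
      obtain ⟨i, rfl⟩ := Subgroup.mem_zpowers_iff.1 hx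
      have h1 : g * z ^ i = z ^ i * g := ((show Commute g z from hzz g).zpow_right i).eq
      rw [h1, mul_inv_cancel_right]
      exact hx
    have hcM : Nat.card M = q := by rw [hM, Nat.card_zpowers, hordz]
    refine ⟨M, hMn, ?_, 2 + 2 * cost q, ?_, ?_⟩
    · intro h
      have h1 : z ∈ M := Subgroup.mem_zpowers z
      rw [h, Subgroup.mem_bot] at h1
      exact hz1 h1
    · rw [hcM]; exact hcb
    · intro F
      obtain ⟨F', hr, hs⟩ := stage_comm haq hta ht hzc F
      exact ⟨F', hr, by rw [hM, Subgroup.zpowers_le]; exact hs⟩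

end Pool.Agent.Helper75.ML
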