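import Pool.Agent.Helper70.ML.St

/-!
Module STR of project ML.
-/

set_option autoImplicit false

namespace Pool.Agent.Helper75.ML

open Pool.Agent.Helper70.ML Pool.Agent.Helper75.MX
open scoped commutatorElement

/-- iterated commutator subgroups of a subgroup -/
def dser {G : Type} [Group G] (M : Subgroup G) : ℕ → Subgroup G
  | 0 => M
  | n + 1 => ⁅dser M n, dser M n⁆

theorem dser_eq {G : Type} [Group G] (M : Subgroup G) (n : ℕ) :
    dser M n = (derivedSeries M n).map M.subtype := by
  induction n with
  | zero =>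
    rw [derivedSeries_zero, ← MonoidHom.range_eq_map, Subgroup.range_subtype]
    rfl
  | succ n ih =>
    rw [derivedSeries_succ, Subgroup.map_commutator, ← ih]
    rfl

theorem dser_normal {G : Type} [Group G] (M : Subgroup G) (hM : M.Normal) (n : ℕ) :
    (dser M n).Normal := by
  induction n with
  | zero => exact hM
  | succ n ih =>
    have := ih
    change (⁅dser M n, dser M n⁆).Normal
    infer_instance

theorem dser_le {G : Type} [Group G] (M : Subgroup G) (n : ℕ) : dser M n ≤ M := by
  rw [dser_eq]
  exact Subgroup.map_subtype_le _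

theorem hSTR : StSTR := by
  intro G _ _ hodd t ht ht1 hcen M hMn hMtop hMsol hMc
  classical
  have hco : Odd (Nat.card (Subgroup.center G)) := hodd _ inferInstance hcen
  have hti : t⁻¹ = t := by rw [inv_eq_iff_mul_eq_one]; exact ht
  have hcc : ∀ z ∈ Subgroup.center G, ∀ x : G, x * z = z * x := fun z hz =>
    Subgroup.mem_center_iff.1 hz
  have hex : ∃ n, dser M n ≤ Subgroup.center G := by
    obtain ⟨n, hn⟩ := hMsol.solvable
    exact ⟨n, by rw [dser_eq, hn, Subgroup.map_bot]; exact bot_le⟩
  set n := Nat.find hex with hn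
  have hn0 : n ≠ 0 := by
    intro h0
    have := Nat.find_spec hex
    rw [← hn, h0] at this
    exact hMc this
  obtain ⟨m, hm⟩ := Nat.exists_eq_succ_of_ne_zero hn0
  set A := dser M m with hA
  have hAn : A.Normal := dser_normal M hMn m
  have hAc : ¬ A ≤ Subgroup.center G := Nat.find_min hex (by omega)
  have hAA : ⁅A, A⁆ ≤ Subgroup.center G := by
    have := Nat.find_spec hex
    rw [← hn, hm] at this
    exact this
  have hAtop : A ≠ ⊤ := by
    intro htop
    exact hMtop (top_le_iff.1 (htop ▸ dser_le M m))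
  have hAodd : Odd (Nat.card A) := hodd A hAn hAtop
  have hb : ∃ b ∈ A, t * b * t⁻¹ * b⁻¹ ∉ Subgroup.center G := by
    by_contra hcon
    push Not at hcon
    apply hAc
    have hcomm : ∀ b ∈ A, b * t = t * b := by
      intro b hbA
      have hz := hcon b hbA
      set z := t * b * t⁻¹ * b⁻¹ with hzdef
      have h1 : t * b * t⁻¹ = z * b := by rw [hzdef]; group
      have h2 : z * z = 1 := by
        have h3 : t * (t * b * t⁻¹) * t⁻¹ = b := by
          have : t * (t * b * t⁻¹) * t⁻¹ = (t * t) * b * (t * t)⁻¹ := by group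
          rw [this, ht]; group
        rw [h1] at h3
        have h4 : t * (z * b) * t⁻¹ = (t * z) * t⁻¹ * (t * b * t⁻¹) := by group
        rw [h4, hcc z hz t, h1] at h3
        have h5 : z * t * t⁻¹ * (z * b) = z * z * b := by group
        rw [h5] at h3
        exact mul_eq_right.1 h3
      have h6 := odd_sq hco hz h2
      rw [h6, one_mul] at h1
      exact (mul_inv_eq_iff_eq_mul.1 h1).symm
    have hcent : t ∈ Subgroup.centralizer (A : Set G) := by
      rw [Subgroup.mem_centralizer_iff]
      intro b hb
      exact hcomm b hb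
    have hle : Subgroup.normalClosure {t} ≤ Subgroup.centralizer (A : Set G) :=
      Subgroup.normalClosure_le_normal (by
        intro x hx
        rw [Set.mem_singleton_iff] at hx
        rw [hx]; exact hcent)
    rw [ht1] at hle
    intro b hbA
    rw [Subgroup.mem_center_iff]
    intro g
    have := (Subgroup.mem_centralizer_iff.1 (hle (Subgroup.mem_top g))) b hbA
    exact this.symm
  obtain ⟨b, hbA, hbc⟩ := hb
  refine ⟨A, hAn, hAodd, hAA, t * b * t⁻¹ * b⁻¹,
    A.mul_mem (hAn.conj_mem b hbA t) (A.inv_mem hbA), ?_, hbc⟩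
  have h1 : t * (t * b * t⁻¹ * b⁻¹) * t⁻¹ = (t * t) * b * t⁻¹ * b⁻¹ * t⁻¹ := by group
  rw [h1, ht, one_mul]
  have h2 : (t * b * t⁻¹ * b⁻¹)⁻¹ = b * t * b⁻¹ * t⁻¹ := by group
  rw [h2, hti]

end Pool.Agent.Helper75.ML
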